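import Pool.Agent.Lib.MP_cdd7b4_an.MX.Iface

set_option autoImplicit false

namespace Pool.Agent.Lib.MP_cdd7b4_an.MX.H1

open MeasureTheory
open Pool.Agent.Lib.MP_cdd7b4_an.MX
open Pool.Agent.Lib.MP_cdd7b4_an.H80 (av sg)
open scoped BigOperators ENNReal

lemma lpn_nonneg {ι : Type*} [Fintype ι] (p : ℝ) (a : ι → ℝ) : 0 ≤ lpn p a :=
  Real.rpow_nonneg (Finset.sum_nonneg (fun _ _ => Real.rpow_nonneg (abs_nonneg _) _)) _

lemma nr_nonneg {m : ℕ} (r : ℝ) (w : Fin m → ℝ) : 0 ≤ nr r w := by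
  unfold nr
  split_ifs
  · exact Real.iSup_nonneg (fun j => abs_nonneg _)
  · exact lpn_nonneg _ _

section
variable (𝕜 : Type*) [RCLike 𝕜] (X : Type*) [NormedAddCommGroup X] [NormedSpace 𝕜 X]

lemma av_nonneg' {α : Type*} [Fintype α] (f : α → ℝ) (h : ∀ a, 0 ≤ f a) : 0 ≤ av f :=
  Pool.Agent.Lib.MP_cdd7b4_an.H80.av_nonneg h

variable {X}

lemma NR_nonneg {I Ω S : Type} [Fintype Ω] [Fintype S] [DecidableEq S] (U : I → Ω → X)
    (π : S → I) (w : S → ℝ) (y : X) : 0 ≤ NR 𝕜 U π w y :=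
  av_nonneg' _ (fun _ => norm_nonneg _)

lemma rowsOK_mono {I Ω : Type} [Fintype Ω] {U : I → Ω → X} {m : ℕ} {C C' R R' r : ℝ}
    (h : RowsOK 𝕜 U m C R r) (hC : C ≤ C') (hR : R ≤ R') : RowsOK 𝕜 U m C' R' r := by
  obtain ⟨s0, W, π, A, hA, hW, hs, hb⟩ := h
  refine ⟨s0, W, π, A, hA, hW, hs.trans (mul_le_mul_of_nonneg_right hR hA.le), fun b hb0 => ?_⟩
  obtain ⟨h1, h2⟩ := hb b hb0
  have h3 := NR_nonneg 𝕜 U π (fun js => b js.1 * W js.2) 0
  have h4 : 0 ≤ nr r b * A := mul_nonneg (nr_nonneg _ _) hA.le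
  exact ⟨h1.trans (mul_le_mul_of_nonneg_right hC h3),
    h2.trans (mul_le_mul_of_nonneg_right hC h4)⟩

variable (X)

omit [NormedSpace 𝕜 X] in
lemma ind_apply (d i : ℕ) : ind d i = if i < d then 1 else 0 := by
  unfold ind
  rw [Finsupp.finsetSum_apply]
  by_cases h : i < d
  · rw [if_pos h, Finset.sum_eq_single i]
    · simp
    · intro b _ hb
      simp [hb]
    · intro hi
      exact absurd (Finset.mem_range.mpr h) hi
  · rw [if_neg h]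
    refine Finset.sum_eq_zero (fun j hj => ?_)
    have : j ≠ i := fun e => h (e ▸ Finset.mem_range.mp hj)
    simp [this]

lemma Fbar_ind (hS : SymfStatement 𝕜 X) {I Ω : Type} [Fintype I] [Nonempty I] [Fintype Ω]
    [Nonempty Ω] (U : I → Ω → X) (hU : Symm U) (d : ℕ) :
    Fbar 𝕜 U (ind d) = av (fun π : Fin d → I => NR 𝕜 U π (fun _ => 1) 0) := by
  have h := (hS I Ω U hU).2 (Fin d) Fin.valEmbedding (ind d) (by
    intro i hi
    rw [ind_apply] at hi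
    by_cases h : i < d
    · exact ⟨⟨i, h⟩, rfl⟩
    · rw [if_neg h] at hi
      exact absurd rfl hi)
  rw [h]
  congr 1
  funext π
  congr 1
  funext s
  rw [ind_apply, if_pos]
  exact s.2

/-- CONS: a good family of random vectors generates `ℓ_(1/r)^m(ℓ_p^m)`. -/
theorem cons (hRK : RkStatement) (hS : SymfStatement 𝕜 X) (h1 : Sel1Statement 𝕜 X)
    (h2 : Sel2Statement 𝕜 X) (hF : FincStatement 𝕜 X) : ConsStatement 𝕜 X := by
  intro p M hp hp2 hM m δ hm hδ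
  obtain ⟨ε, hε, hε1, hsel2⟩ := h2 m M hm hM
  obtain ⟨n, hn⟩ := hRK m M (min δ (1 / 2)) ε hm hM (lt_min hδ (by norm_num)) hε
  have hC : (1 : ℝ) ≤ 32 * M := by linarith
  obtain ⟨η, σ, hη, hσ, hfin⟩ := hF p m (32 * M) (2 ^ n) hp hp2 hm hC (by positivity)
  refine ⟨n, η, σ, hη, hσ, ?_⟩
  intro I Ω _ _ _ _ U hU
  have hsym := hU.sym
  have hind := Fbar_ind 𝕜 X hS U hsym
  have hF1 : 1 / 4 ≤ Fbar 𝕜 U (ind 1) := by
    rw [hind]
    have hle : ∀ π : Fin 1 → I, 1 / 4 ≤ NR 𝕜 U π (fun _ => 1) 0 := by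
      intro π
      have h := hU.lo (π 0)
      have e : NR 𝕜 U π (fun _ => 1) 0 = av (fun κ => ‖U (π 0) κ‖) := by
        unfold NR NU
        rw [← Pool.Agent.Lib.MP_cdd7b4_an.H80.av_equiv (Equiv.funUnique (Fin 1) Ω)]
        congr 1
        funext κ
        simp
      rw [e]
      exact h
    calc (1 : ℝ) / 4 = av (fun _ : Fin 1 → I => (1 : ℝ) / 4) :=
          (Pool.Agent.Lib.MP_cdd7b4_an.H80.av_const _).symm
      _ ≤ _ := Pool.Agent.Lib.MP_cdd7b4_an.H80.av_mono hle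
  have hgrow : ∀ k ≤ n, Fbar 𝕜 U (ind (2 ^ k)) ≤ M * (1 + k) ^ 2 * (2 : ℝ) ^ ((k : ℝ) / 2) := by
    intro k hk
    rw [hind]
    exact hU.grow k hk
  have hkey : ∃ r : ℝ, 0 ≤ r ∧ r ≤ 1 / 2 + min δ (1 / 2) ∧ RowsOK 𝕜 U m (32 * M) (2 ^ n) r := by
    rcases hn (Fbar 𝕜 U) (hS I Ω U hsym).1 hF1 hgrow with ⟨k, hk, hslow⟩ | ⟨r, hr0, hr1, W, hW0, hWn,
      hWp, hWε, hb⟩
    · refine ⟨0, le_rfl, by positivity, ?_⟩
      have h := h1 I Ω U M hsym hU.lo hU.hi hM m k hm hslow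
      refine rowsOK_mono 𝕜 h le_rfl ?_
      exact pow_le_pow_right₀ (by norm_num) hk
    · refine ⟨r, hr0, hr1, ?_⟩
      have hr : r ≤ 1 := hr1.trans (by
        have := min_le_right δ (1 / 2 : ℝ)
        linarith)
      have h := hsel2 I Ω U hsym hU.hi n r W hr0 hr hW0 hWn hWp hWε hb
      exact rowsOK_mono 𝕜 h (by linarith) le_rfl
  obtain ⟨r, hr0, hr1, hrows⟩ := hkey
  have hr : r ≤ 1 := hr1.trans (by
    have := min_le_right δ (1 / 2 : ℝ)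
    linarith)
  obtain ⟨u, hu⟩ := hfin I Ω U M r n hU hr0 hr hrows
  refine ⟨r, hr0, hr1.trans ?_, u, hu⟩
  have := min_le_left δ (1 / 2 : ℝ)
  linarith

end

end Pool.Agent.Lib.MP_cdd7b4_an.MX.H1
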