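import Pool.Agent.Lib.MP_cdd7b4_an.MX.Iface

set_option autoImplicit false

namespace Pool.Agent.Lib.MP_cdd7b4_an.MX.H1

open MeasureTheory
open Pool.Agent.Lib.MP_cdd7b4_an.MX
open Pool.Agent.Lib.MP_cdd7b4_an.H80 (av sg HasType ContainsUniformly)
open scoped BigOperators ENNReal

/-- MAIN. -/
theorem main (𝕜 : Type*) [RCLike 𝕜] (X : Type*) [NormedAddCommGroup X] [NormedSpace 𝕜 X]
    (hCONS : ConsStatement 𝕜 X) (hPROD : ProdStatement 𝕜 X) (hLIM : LimStatement 𝕜 X)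
    (p : ℝ) (hp : 1 ≤ p) (hp2 : p < 2) (hX : ContainsLp 𝕜 X p)
    (ht : ∀ q : ℝ, 1 ≤ q → q < p → HasType X q)
    (h : ∃ (Ω : Type) (_ : MeasurableSpace Ω) (ν : Measure Ω),
      ContainsUniformly 𝕜 (Lp X 1 ν) X) :
    ∃ t : ℝ≥0∞, 2 ≤ t ∧ ContainsMixed 𝕜 X t p := by
  obtain ⟨M, hM, hM2⟩ := hPROD p hp hp2 hX ht h
  refine hLIM p (600 * (32 * M) ^ 2) hp (fun m δ hm hδ => ?_)
  obtain ⟨n, η, σ, hη, hσ, hU⟩ := hCONS p M hp hp2 hM m δ hm hδ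
  obtain ⟨I, Ω, i1, i2, i3, i4, U, hgood⟩ := hM2 n η σ hη hσ
  exact hU I Ω U hgood

end Pool.Agent.Lib.MP_cdd7b4_an.MX.H1
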