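import Pool.Agent.Lib.MP_cdd7b4_an.MX.Iface

set_option autoImplicit false

namespace Pool.Agent.Lib.MP_cdd7b4_an.MX.H1

open MeasureTheory
open Pool.Agent.Lib.MP_cdd7b4_an.MX
open Pool.Agent.Lib.MP_cdd7b4_an.H80 (av sg HasType ContainsUniformly)
open scoped BigOperators ENNReal

section
variable {𝕜 : Type*} [RCLike 𝕜] {X : Type*} [NormedAddCommGroup X] [NormedSpace 𝕜 X]

/-- flip all signs of a block -/
lemma blk_symm {N K D : ℕ} (x : Fin N → Fin K → X) (a : Fin D → ℝ) :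
    Symm (fun (n : Fin N) (κ : Fin D → Fin K × Bool) => blk 𝕜 (x n) a κ) := by
  refine ⟨fun κ i => ((κ i).1, !(κ i).2), ?_, ?_⟩
  · intro κ
    funext i
    simp
  · intro n κ
    simp only [blk]
    rw [← Finset.sum_neg_distrib]
    refine Finset.sum_congr rfl (fun i _ => ?_)
    rw [Pool.Agent.Lib.MP_cdd7b4_an.H80.sg_not, neg_smul, smul_neg]

/-- truncation decreases the average norm -/
lemma NR_xt_le {N K D : ℕ} (τ : ℝ) (x : Fin N → Fin K → X) (a : Fin D → ℝ) {S : Type} [Fintype S]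
    [DecidableEq S] (ν : S → Fin N) (w : S → ℝ) (y : X) :
    NR 𝕜 (fun n (κ : Fin D → Fin K × Bool) => blk 𝕜 (xt τ x n) a κ) ν w y ≤
      NR 𝕜 (fun n (κ : Fin D → Fin K × Bool) => blk 𝕜 (x n) a κ) ν w y := by
  classical
  let T : (S → Fin D → Fin K × Bool) → (S → Fin D → Fin K × Bool) := fun κ s i =>
    if ‖x (ν s) (κ s i).1‖ ≤ τ then κ s i else ((κ s i).1, !(κ s i).2)
  have hT : Function.Involutive T := by
    intro κ
    funext s i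
    by_cases h : ‖x (ν s) (κ s i).1‖ ≤ τ
    · simp only [T, if_pos h]
    · simp only [T, if_neg h]
      simp
  have key : ∀ (κ : S → Fin D → Fin K × Bool) (s : S), blk 𝕜 (xt τ x (ν s)) a (κ s) =
      ((1 / 2 : ℝ) : 𝕜) • (blk 𝕜 (x (ν s)) a (κ s) + blk 𝕜 (x (ν s)) a (T κ s)) := by
    intro κ s
    simp only [blk]
    rw [← Finset.sum_add_distrib, Finset.smul_sum]
    refine Finset.sum_congr rfl (fun i _ => ?_)
    by_cases h : ‖x (ν s) (κ s i).1‖ ≤ τ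
    · simp only [T, if_pos h, xt]
      generalize ((a i : ℝ) : 𝕜) • (sg 𝕜 (κ s i).2 • x (ν s) (κ s i).1) = z
      have : (((1 / 2 : ℝ) : 𝕜)) * 2 = 1 := by
        push_cast
        field_simp
      rw [← two_smul 𝕜 z, smul_smul, this, one_smul]
    · simp only [T, if_neg h, xt]
      rw [Pool.Agent.Lib.MP_cdd7b4_an.H80.sg_not, neg_smul, smul_neg]
      simp
  have hpt : ∀ κ : S → Fin D → Fin K × Bool,
      ‖∑ s, ((w s : ℝ) : 𝕜) • blk 𝕜 (xt τ x (ν s)) a (κ s) + y‖ ≤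
      1 / 2 * ‖∑ s, ((w s : ℝ) : 𝕜) • blk 𝕜 (x (ν s)) a (κ s) + y‖ +
      1 / 2 * ‖∑ s, ((w s : ℝ) : 𝕜) • blk 𝕜 (x (ν s)) a (T κ s) + y‖ := by
    intro κ
    have e : ∑ s, ((w s : ℝ) : 𝕜) • blk 𝕜 (xt τ x (ν s)) a (κ s) + y =
        ((1 / 2 : ℝ) : 𝕜) • (∑ s, ((w s : ℝ) : 𝕜) • blk 𝕜 (x (ν s)) a (κ s) + y) +
        ((1 / 2 : ℝ) : 𝕜) • (∑ s, ((w s : ℝ) : 𝕜) • blk 𝕜 (x (ν s)) a (T κ s) + y) := by
      rw [← smul_add, add_add_add_comm, ← Finset.sum_add_distrib, smul_add, ← two_smul 𝕜 y,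
        smul_smul]
      have : (((1 / 2 : ℝ) : 𝕜)) * 2 = 1 := by
        push_cast
        field_simp
      rw [this, one_smul, Finset.smul_sum]
      congr 1
      refine Finset.sum_congr rfl (fun s _ => ?_)
      rw [key κ s, ← smul_add, smul_comm]
    rw [e]
    refine (norm_add_le _ _).trans (le_of_eq ?_)
    rw [norm_smul, norm_smul]
    have : ‖(((1 / 2 : ℝ) : 𝕜))‖ = 1 / 2 := by
      rw [RCLike.norm_ofReal]
      norm_num
    rw [this]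
  unfold NR NU
  refine (Pool.Agent.Lib.MP_cdd7b4_an.H80.av_mono hpt).trans (le_of_eq ?_)
  rw [Pool.Agent.Lib.MP_cdd7b4_an.H80.av_add, Pool.Agent.Lib.MP_cdd7b4_an.H80.av_const_mul,
    Pool.Agent.Lib.MP_cdd7b4_an.H80.av_const_mul]
  have := Pool.Agent.Lib.MP_cdd7b4_an.H80.av_inv hT
    (fun κ => ‖∑ s, ((w s : ℝ) : 𝕜) • blk 𝕜 (x (ν s)) a (κ s) + y‖)
  rw [this]
  ring

/-- one slot -/
lemma NR_one {I Ω : Type} [Fintype Ω] (U : I → Ω → X) (π : Fin 1 → I) :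
    NR 𝕜 U π (fun _ => 1) 0 = av (fun κ => ‖U (π 0) κ‖) := by
  unfold NR NU
  rw [← Pool.Agent.Lib.MP_cdd7b4_an.H80.av_equiv (Equiv.funUnique (Fin 1) Ω)]
  congr 1
  funext κ
  simp

lemma av_xt_le {N K D : ℕ} (τ : ℝ) (x : Fin N → Fin K → X) (a : Fin D → ℝ) (n : Fin N) :
    av (fun κ : Fin D → Fin K × Bool => ‖blk 𝕜 (xt τ x n) a κ‖) ≤
      av (fun κ : Fin D → Fin K × Bool => ‖blk 𝕜 (x n) a κ‖) := by
  have h := NR_xt_le (𝕜 := 𝕜) τ x a (fun _ : Fin 1 => n) (fun _ => 1) 0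
  rw [NR_one, NR_one] at h
  exact h

lemma av_fin_one {α : Type*} [Fintype α] (f : α → ℝ) :
    av (fun ν : Fin 1 → α => f (ν 0)) = av f := by
  rw [← Pool.Agent.Lib.MP_cdd7b4_an.H80.av_equiv (Equiv.funUnique (Fin 1) α)]
  rfl

lemma Psi_one {N K D : ℕ} (x : Fin N → Fin K → X) (a : Fin D → ℝ) :
    Psi 𝕜 x 1 a = av (fun n => av (fun κ : Fin D → Fin K × Bool => ‖blk 𝕜 (x n) a κ‖)) := by
  unfold Psi
  rw [← av_fin_one (fun n => av (fun κ : Fin D → Fin K × Bool => ‖blk 𝕜 (x n) a κ‖))]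
  congr 1
  funext ν
  rw [NR_one]

/-- one slot is at most the whole sum -/
lemma single_le (hU : UncStatement 𝕜 X) {I Ω S : Type} [Fintype Ω] [Nonempty Ω] [Fintype S]
    [DecidableEq S] (U : I → Ω → X) (hs : Symm U) (π : S → I) (j : S) :
    av (fun κ => ‖U (π j) κ‖) ≤ NR 𝕜 U π (fun _ => 1) 0 := by
  have h := (hU I Ω S U hs π (fun s => if s = j then 1 else 0) (fun _ => 1)).1 (by
    intro s
    by_cases h : s = j
    · exact ⟨1, by simp, by simp [h]⟩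
    · exact ⟨0, by simp, by simp [h]⟩)
  have e : NU U π (fun s => if s = j then (1 : 𝕜) else 0) 0 = av (fun κ => ‖U (π j) κ‖) := by
    unfold NU
    rw [← Pool.Agent.Lib.MP_cdd7b4_an.H80.av_coord j (fun κ => ‖U (π j) κ‖)]
    congr 1
    funext κ
    simp
  rw [e] at h
  refine h.trans (le_of_eq ?_)
  unfold NR
  congr 1
  funext s
  simp

end

/-- every normed space has type one -/
lemma hasType_one (X : Type*) [NormedAddCommGroup X] : HasType X 1 := by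
  refine ⟨1, fun n x => ?_⟩
  have hb : ∀ e : Fin n → Bool, ‖∑ i, (if e i then x i else - x i)‖ ≤ ∑ i, ‖x i‖ := by
    intro e
    refine (norm_sum_le _ _).trans (Finset.sum_le_sum (fun i _ => ?_))
    split_ifs <;> simp
  have h0 : 0 ≤ ∑ i, ‖x i‖ := Finset.sum_nonneg (fun _ _ => norm_nonneg _)
  have hR : (1 : ℝ) * (∑ i, ‖x i‖ ^ (1 : ℝ)) ^ ((1 : ℝ) / 1) = ∑ i, ‖x i‖ := by
    simp
  rw [hR, Real.sqrt_le_left h0]
  have h2 : ∑ e : Fin n → Bool, ‖∑ i, (if e i then x i else - x i)‖ ^ 2 ≤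
      ∑ _e : Fin n → Bool, (∑ i, ‖x i‖) ^ 2 :=
    Finset.sum_le_sum (fun e _ => pow_le_pow_left₀ (norm_nonneg _) (hb e) 2)
  rw [Finset.sum_const, Finset.card_univ, nsmul_eq_mul] at h2
  have hc : (Fintype.card (Fin n → Bool) : ℝ) = 2 ^ n := by
    simp
  rw [hc] at h2
  have hp : (0 : ℝ) < 2 ^ n := by positivity
  rw [inv_mul_le_iff₀ hp]
  exact h2

/-- polynomial times exponential decay -/
lemma decay (A γ ε : ℝ) (hγ : 0 < γ) (hε : 0 < ε) :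
    ∃ N : ℕ, ∀ κ : ℕ, N ≤ κ → A * (1 + 2 * (κ : ℝ)) ^ 4 * (2 : ℝ) ^ (-(γ * κ)) ≤ ε := by
  have h2 : (1 : ℝ) < (2 : ℝ) ^ γ := Real.one_lt_rpow (by norm_num) hγ
  have hinv : |((2 : ℝ) ^ γ)⁻¹| < 1 := by
    rw [abs_of_pos (by positivity)]
    exact inv_lt_one_of_one_lt₀ h2
  have ht := tendsto_pow_const_mul_const_pow_of_abs_lt_one 4 hinv
  have ht2 : Filter.Tendsto (fun n : ℕ => |A| * 81 * ((n : ℝ) ^ 4 * ((2 : ℝ) ^ γ)⁻¹ ^ n))
      Filter.atTop (nhds 0) := by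
    have := ht.const_mul (|A| * 81)
    simpa using this
  obtain ⟨N, hN⟩ := Filter.eventually_atTop.mp (ht2.eventually (gt_mem_nhds hε))
  refine ⟨max N 1, fun κ hκ => ?_⟩
  have hκ1 : (1 : ℝ) ≤ κ := by exact_mod_cast (le_max_right N 1).trans hκ
  have h := hN κ ((le_max_left N 1).trans hκ)
  have hp : (2 : ℝ) ^ (-(γ * κ)) = ((2 : ℝ) ^ γ)⁻¹ ^ κ := by
    rw [Real.rpow_neg (by norm_num), Real.rpow_mul (by norm_num), Real.rpow_natCast, inv_pow]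
  rw [hp]
  have hq : 0 ≤ ((2 : ℝ) ^ γ)⁻¹ ^ κ := by positivity
  have h4 : (1 + 2 * (κ : ℝ)) ^ 4 ≤ 81 * (κ : ℝ) ^ 4 := by
    have : (1 + 2 * (κ : ℝ)) ^ 4 ≤ (3 * (κ : ℝ)) ^ 4 :=
      pow_le_pow_left₀ (by positivity) (by linarith) 4
    refine this.trans (le_of_eq ?_)
    ring
  calc A * (1 + 2 * (κ : ℝ)) ^ 4 * ((2 : ℝ) ^ γ)⁻¹ ^ κ
      ≤ |A| * (1 + 2 * (κ : ℝ)) ^ 4 * ((2 : ℝ) ^ γ)⁻¹ ^ κ := by
        gcongr
        exact le_abs_self A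
    _ ≤ |A| * (81 * (κ : ℝ) ^ 4) * ((2 : ℝ) ^ γ)⁻¹ ^ κ := by
        gcongr
    _ = |A| * 81 * ((κ : ℝ) ^ 4 * ((2 : ℝ) ^ γ)⁻¹ ^ κ) := by ring
    _ ≤ ε := h.le

/-- the exponent `q` -/
lemma exists_q (p : ℝ) (hp : 1 ≤ p) (hp2 : p < 2) (P : ℝ → Prop) (h1 : P 1)
    (hP : ∀ q, 1 ≤ q → q < p → P q) :
    ∃ q : ℝ, 1 ≤ q ∧ q ≤ p ∧ P q ∧ 0 < (2 - q) / q * ((1 / p - 1 / 2) / 2) - (1 / q - 1 / p) := by
  have hs0 : 0 < (2 - p) ^ 2 / 8 := by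
    have : 0 < 2 - p := by linarith
    positivity
  set s := min ((2 - p) ^ 2 / 8) (p - 1) with hs
  have hs1 : s ≤ (2 - p) ^ 2 / 8 := min_le_left _ _
  have hs2 : s ≤ p - 1 := min_le_right _ _
  have hs3 : 0 ≤ s := le_min hs0.le (by linarith)
  have hq1 : 1 ≤ p - s := by linarith
  refine ⟨p - s, hq1, by linarith, ?_, ?_⟩
  · rcases eq_or_lt_of_le hp with h | h
    · have : p - s = 1 := by
        have : s = 0 := le_antisymm (by linarith) hs3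
        linarith
      rw [this]
      exact h1
    · have hs4 : 0 < s := lt_min hs0 (by linarith)
      exact hP _ hq1 (by linarith)
  · have hp0 : 0 < p := by linarith
    have hq0 : 0 < p - s := by linarith
    have e : (2 - (p - s)) / (p - s) * ((1 / p - 1 / 2) / 2) - (1 / (p - s) - 1 / p) =
        ((2 - (p - s)) * (2 - p) / 4 - s) / (p * (p - s)) := by
      field_simp
      ring
    rw [e]
    apply div_pos _ (by positivity)
    have h5 : (2 - p) ^ 2 ≤ (2 - (p - s)) * (2 - p) := by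
      rw [sq]
      exact mul_le_mul_of_nonneg_right (by linarith) (by linarith)
    nlinarith

/-- the choice of the parameters -/
lemma exists_params (p q C : ℝ) (l : ℕ) (σ : ℝ) (hp : 1 ≤ p) (hp2 : p < 2) (hq : 1 ≤ q)
    (hqp : q ≤ p) (hγ : 0 < (2 - q) / q * ((1 / p - 1 / 2) / 2) - (1 / q - 1 / p)) (hC : 0 < C)
    (hσ : 0 < σ) :
    ∃ κ0 i0 i1 : ℕ, i0 ≤ i1 ∧
      C * ((1 + (i0 : ℝ)) ^ 4 * (2 : ℝ) ^ (-((2 - q) * i0))) ^ (1 / q) *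
        ((3 * l + 1) * (2 : ℝ) ^ ((κ0 + 3 * l : ℝ) * (1 / q - 1 / p))) ≤ 1 / 16 ∧
      C * (1 + (i1 : ℝ)) ^ 2 * (2 : ℝ) ^ (-((i1 : ℝ) / 2)) *
        ((3 * l + 1) * (2 : ℝ) ^ ((κ0 + 3 * l : ℝ) * (1 / 1 - 1 / p))) ≤ 1 / 16 ∧
      (2 * (2 : ℝ) ^ i0) ^ 2 * ((3 * l + 1) * (2 : ℝ) ^ (-((κ0 : ℝ) * (1 / p - 1 / 2)))) ^ 2 ≤
        σ ^ 2 := by
  have hp0 : 0 < p := by linarith
  have hq0 : 0 < q := by linarith
  have hq2 : q < 2 := by linarith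
  set g : ℝ := (1 / p - 1 / 2) / 2 with hg
  have hg0 : 0 < g := by
    have : 1 / 2 < 1 / p := by
      apply one_div_lt_one_div_of_lt hp0 hp2
    rw [hg]
    linarith
  have hg1 : g ≤ 1 := by
    have : 1 / p ≤ 1 := by
      rw [div_le_one hp0]
      exact hp
    rw [hg]
    linarith
  have h2g : 1 / p - 1 / 2 = 2 * g := by rw [hg]; ring
  set γ1 : ℝ := (2 - q) / q * g - (1 / q - 1 / p) with hγ1
  obtain ⟨N1, hN1⟩ := decay (C * (3 * l + 1) * (2 : ℝ) ^ ((2 - q) / q) *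
    (2 : ℝ) ^ (3 * l * (1 / q - 1 / p))) γ1 (1 / 16) hγ (by norm_num)
  obtain ⟨N2, hN2⟩ := decay (C * (3 * l + 1) * (2 : ℝ) ^ (3 * l * (1 - 1 / p))) (1 / p) (1 / 16)
    (by positivity) (by norm_num)
  obtain ⟨N3, hN3⟩ := decay (4 * (3 * l + 1) ^ 2) (2 * g) (σ ^ 2) (by positivity) (by positivity)
  set κ := max N1 (max N2 N3) with hκ
  have hκ1 : N1 ≤ κ := le_max_left _ _
  have hκ2 : N2 ≤ κ := (le_max_left _ _).trans (le_max_right _ _)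
  have hκ3 : N3 ≤ κ := (le_max_right _ _).trans (le_max_right _ _)
  have k1 := hN1 κ hκ1
  have k2 := hN2 κ hκ2
  have k3 := hN3 κ hκ3
  set i0 := ⌊g * κ⌋₊ with hi0
  have hgκ : 0 ≤ g * κ := by positivity
  have hi0le : (i0 : ℝ) ≤ g * κ := Nat.floor_le hgκ
  have hi0ge : g * κ - 1 ≤ (i0 : ℝ) := by
    have := Nat.lt_floor_add_one (g * κ)
    rw [hi0]
    linarith
  have hi0κ : (i0 : ℝ) ≤ κ := hi0le.trans (by
    have : (0 : ℝ) ≤ κ := Nat.cast_nonneg _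
    nlinarith)
  refine ⟨κ, i0, 2 * κ, ?_, ?_, ?_, ?_⟩
  · have : i0 ≤ κ := by exact_mod_cast hi0κ
    omega
  · -- T1
    refine le_trans ?_ k1
    have hb : (1 : ℝ) ≤ (1 + (i0 : ℝ)) ^ 4 := by
      apply one_le_pow₀
      have : (0 : ℝ) ≤ i0 := Nat.cast_nonneg _
      linarith
    have e1 : ((1 + (i0 : ℝ)) ^ 4 * (2 : ℝ) ^ (-((2 - q) * i0))) ^ (1 / q) =
        ((1 + (i0 : ℝ)) ^ 4) ^ (1 / q) * (2 : ℝ) ^ (-((2 - q) / q * i0)) := by
      rw [Real.mul_rpow (by positivity) (by positivity), ← Real.rpow_mul (by norm_num)]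
      congr 2
      field_simp
    have e2 : ((1 + (i0 : ℝ)) ^ 4) ^ (1 / q) ≤ (1 + 2 * (κ : ℝ)) ^ 4 := by
      have h1 : ((1 + (i0 : ℝ)) ^ 4) ^ (1 / q) ≤ (1 + (i0 : ℝ)) ^ 4 := by
        conv_rhs => rw [← Real.rpow_one ((1 + (i0 : ℝ)) ^ 4)]
        apply Real.rpow_le_rpow_of_exponent_le hb
        rw [div_le_one hq0]
        exact hq
      refine h1.trans (pow_le_pow_left₀ (by positivity) ?_ 4)
      have : (0 : ℝ) ≤ κ := Nat.cast_nonneg _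
      linarith
    have e3 : (2 : ℝ) ^ (-((2 - q) / q * i0)) ≤
        (2 : ℝ) ^ ((2 - q) / q) * (2 : ℝ) ^ (-((2 - q) / q * g * κ)) := by
      rw [← Real.rpow_add (by norm_num)]
      apply Real.rpow_le_rpow_of_exponent_le (by norm_num)
      have : 0 ≤ (2 - q) / q := div_nonneg (by linarith) hq0.le
      nlinarith
    have e4 : (2 : ℝ) ^ ((κ + 3 * l : ℝ) * (1 / q - 1 / p)) =
        (2 : ℝ) ^ (3 * l * (1 / q - 1 / p)) * (2 : ℝ) ^ ((1 / q - 1 / p) * κ) := by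
      rw [← Real.rpow_add (by norm_num)]
      congr 1
      ring
    have e5 : (2 : ℝ) ^ (-(γ1 * κ)) =
        (2 : ℝ) ^ (-((2 - q) / q * g * κ)) * (2 : ℝ) ^ ((1 / q - 1 / p) * κ) := by
      rw [← Real.rpow_add (by norm_num)]
      congr 1
      rw [hγ1]
      ring
    rw [e1, e4, e5]
    calc C * (((1 + (i0 : ℝ)) ^ 4) ^ (1 / q) * (2 : ℝ) ^ (-((2 - q) / q * i0))) *
          ((3 * l + 1) * ((2 : ℝ) ^ (3 * l * (1 / q - 1 / p)) * (2 : ℝ) ^ ((1 / q - 1 / p) * κ)))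
        ≤ C * ((1 + 2 * (κ : ℝ)) ^ 4 * ((2 : ℝ) ^ ((2 - q) / q) *
            (2 : ℝ) ^ (-((2 - q) / q * g * κ)))) *
          ((3 * l + 1) * ((2 : ℝ) ^ (3 * l * (1 / q - 1 / p)) *
            (2 : ℝ) ^ ((1 / q - 1 / p) * κ))) := by
          gcongr
      _ = _ := by ring
  · -- T2
    refine le_trans ?_ k2
    have e1 : (2 : ℝ) ^ (-(((2 * κ : ℕ) : ℝ) / 2)) * (2 : ℝ) ^ ((κ + 3 * l : ℝ) * (1 / 1 - 1 / p)) =
        (2 : ℝ) ^ (3 * l * (1 - 1 / p)) * (2 : ℝ) ^ (-(1 / p * κ)) := by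
      rw [← Real.rpow_add (by norm_num), ← Real.rpow_add (by norm_num)]
      congr 1
      push_cast
      ring
    have e2 : (1 + ((2 * κ : ℕ) : ℝ)) ^ 2 ≤ (1 + 2 * (κ : ℝ)) ^ 4 := by
      push_cast
      apply pow_le_pow_right₀ _ (by norm_num)
      have : (0 : ℝ) ≤ κ := Nat.cast_nonneg _
      linarith
    calc C * (1 + ((2 * κ : ℕ) : ℝ)) ^ 2 * (2 : ℝ) ^ (-(((2 * κ : ℕ) : ℝ) / 2)) *
        ((3 * l + 1) * (2 : ℝ) ^ ((κ + 3 * l : ℝ) * (1 / 1 - 1 / p)))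
        = C * (1 + ((2 * κ : ℕ) : ℝ)) ^ 2 * (3 * l + 1) * ((2 : ℝ) ^ (-(((2 * κ : ℕ) : ℝ) / 2)) *
          (2 : ℝ) ^ ((κ + 3 * l : ℝ) * (1 / 1 - 1 / p))) := by ring
      _ ≤ C * (1 + 2 * (κ : ℝ)) ^ 4 * (3 * l + 1) * ((2 : ℝ) ^ (-(((2 * κ : ℕ) : ℝ) / 2)) *
          (2 : ℝ) ^ ((κ + 3 * l : ℝ) * (1 / 1 - 1 / p))) := by gcongr
      _ = _ := by rw [e1]; ring
  · -- T3
    refine le_trans ?_ k3
    have e1 : (2 : ℝ) ^ i0 ≤ (2 : ℝ) ^ (g * κ) := by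
      rw [← Real.rpow_natCast]
      exact Real.rpow_le_rpow_of_exponent_le (by norm_num) hi0le
    have e2 : (1 : ℝ) ≤ (1 + 2 * (κ : ℝ)) ^ 4 := by
      apply one_le_pow₀
      have : (0 : ℝ) ≤ κ := Nat.cast_nonneg _
      linarith
    have e3 : (2 : ℝ) ^ (g * κ) * (2 : ℝ) ^ (-((κ : ℝ) * (1 / p - 1 / 2))) = (2 : ℝ) ^ (-(g * κ)) := by
      rw [← Real.rpow_add (by norm_num), h2g]
      congr 1
      ring
    have e4 : ((2 : ℝ) ^ (-(g * κ))) ^ 2 = (2 : ℝ) ^ (-(2 * g * κ)) := by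
      rw [← Real.rpow_natCast, ← Real.rpow_mul (by norm_num)]
      congr 1
      push_cast
      ring
    calc (2 * (2 : ℝ) ^ i0) ^ 2 * ((3 * l + 1) * (2 : ℝ) ^ (-((κ : ℝ) * (1 / p - 1 / 2)))) ^ 2
        ≤ (2 * (2 : ℝ) ^ (g * κ)) ^ 2 *
          ((3 * l + 1) * (2 : ℝ) ^ (-((κ : ℝ) * (1 / p - 1 / 2)))) ^ 2 := by gcongr
      _ = 4 * (3 * l + 1) ^ 2 *
          ((2 : ℝ) ^ (g * κ) * (2 : ℝ) ^ (-((κ : ℝ) * (1 / p - 1 / 2)))) ^ 2 := by ring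
      _ = 4 * (3 * l + 1) ^ 2 * 1 * (2 : ℝ) ^ (-(2 * g * κ)) := by rw [e3, e4]; ring
      _ ≤ 4 * (3 * l + 1) ^ 2 * (1 + 2 * (κ : ℝ)) ^ 4 * (2 : ℝ) ^ (-(2 * g * κ)) := by gcongr

/-- PROD: from `L¹(X)` to the family of block vectors. -/
theorem prod (𝕜 : Type*) [RCLike 𝕜] (X : Type*) [NormedAddCommGroup X] [NormedSpace 𝕜 X]
    (hUNC : UncStatement 𝕜 X) (hPROF : ProfStatement) (hPICK : PickStatement 𝕜 X)
    (hTRUNC : TruncStatement 𝕜 X) (hROWS : RowsStatement) (hSUB : SubStatement 𝕜 X)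
    (hCONC : ConcStatement 𝕜 X) (hEIG : EigStatement 𝕜 X) : ProdStatement 𝕜 X := by
  intro p hp hp2 hcont htype hL1
  obtain ⟨β, hβ, hpick⟩ := hPICK p hp hp2 hcont hL1
  obtain ⟨M₁, ρ, k0, hM₁, hρ, hrows⟩ := hROWS β hβ
  refine ⟨max M₁ (β / ρ), hM₁.trans (le_max_left _ _), ?_⟩
  intro n η σ hη hσ
  have hM0 : 0 < M₁ := by linarith
  -- the width
  obtain ⟨l, hl⟩ := exists_nat_gt (2 * M₁ / η)
  have hl0 : (0 : ℝ) < l := lt_of_le_of_lt (by positivity) hl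
  have hl1 : 1 ≤ l := by
    have : 0 < l := by exact_mod_cast hl0
    omega
  have hlη : 2 / (l : ℝ) * M₁ ≤ η := by
    rw [div_lt_iff₀ hη] at hl
    rw [div_mul_eq_mul_div, div_le_iff₀ hl0]
    linarith
  -- the exponent
  obtain ⟨q, hq, hqp, hqt, hγ⟩ := exists_q p hp hp2 (fun q => HasType X q) (hasType_one X) htype
  have hq2 : q < 2 := by linarith
  obtain ⟨C, hC, htr⟩ := hTRUNC β q hβ hq hq2 hqt
  obtain ⟨κ0, i0, i1, hi, hT1, hT2, hT3⟩ := exists_params p q C l σ hp hp2 hq hqp hγ hC hσ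
  obtain ⟨a, b, hab, hb0, hdil, hlp, hlp1, hlq, hl2⟩ := hPROF p l κ0 hp hp2 hl1
  set D : ℕ := 2 ^ (κ0 + 3 * l) with hD
  obtain ⟨N, K, x, hN, hK, hx1, hx2, hx3, hx4⟩ := hpick D (max n k0) (3 * i1 + 3)
    (fun i : Fin D => a i) (fun i : Fin D => b i) hlp hlp1
  have : Nonempty (Fin K × Bool) := ⟨(⟨0, hK⟩, true)⟩
  have : Nonempty (Fin N) := ⟨⟨0, hN⟩⟩
  -- the functions of the rows
  set F : Fin N → ℝ := fun m =>
    av (fun κ : Fin D → Fin K × Bool => ‖blk 𝕜 (x m) (fun i : Fin D => a i) κ‖) with hF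
  set F' : Fin N → ℝ := fun m =>
    av (fun κ : Fin D → Fin K × Bool =>
      ‖blk 𝕜 (xt ((2 : ℝ) ^ i0) x m) (fun i : Fin D => a i) κ‖) with hF'
  set G : Fin N → ℝ := fun m =>
    av (fun κ : Fin D → Fin K × Bool => ‖blk 𝕜 (x m) (fun i : Fin D => b i) κ‖) with hG
  have hFF : ∀ m, F' m ≤ F m := fun m => av_xt_le _ x _ m
  have hF0 : ∀ m, 0 ≤ F' m := fun m =>
    Pool.Agent.Lib.MP_cdd7b4_an.H80.av_nonneg (fun _ => norm_nonneg _)
  have hG0 : ∀ m, 0 ≤ G m := fun m =>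
    Pool.Agent.Lib.MP_cdd7b4_an.H80.av_nonneg (fun _ => norm_nonneg _)
  have havF : av F = 1 := by
    rw [← hx1, Psi_one]
  have havG : av G ≤ β := by
    rw [Psi_one] at hx2
    exact hx2
  have hdiff : av F - av F' ≤ 1 / 8 := by
    have ht := htr N K (3 * i1 + 3) D x (fun i : Fin D => a i) hN hK (fun i => (hab i).1) hx3
      i0 i1 hi le_rfl
    have h1 : av F - av F' ≤ av (fun m => av (fun κ : Fin D → Fin K × Bool =>
        ‖blk 𝕜 (x m) (fun i : Fin D => a i) κ -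
          blk 𝕜 (xt ((2 : ℝ) ^ i0) x m) (fun i : Fin D => a i) κ‖)) := by
      rw [← Pool.Agent.Lib.MP_cdd7b4_an.H80.av_sub]
      refine Pool.Agent.Lib.MP_cdd7b4_an.H80.av_mono (fun m => ?_)
      simp only [hF, hF']
      rw [← Pool.Agent.Lib.MP_cdd7b4_an.H80.av_sub]
      exact Pool.Agent.Lib.MP_cdd7b4_an.H80.av_mono (fun κ => norm_sub_norm_le _ _)
    have h2 := hlq q hq hqp
    have h3 := hlq 1 le_rfl hp
    have h4 : C * ((1 + (i0 : ℝ)) ^ 4 * (2 : ℝ) ^ (-((2 - q) * i0))) ^ (1 / q) *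
        lpn q (fun i : Fin D => a i) ≤ 1 / 16 :=
      le_trans (mul_le_mul_of_nonneg_left h2 (by positivity)) hT1
    have h5 : C * (1 + (i1 : ℝ)) ^ 2 * (2 : ℝ) ^ (-((i1 : ℝ) / 2)) *
        lpn 1 (fun i : Fin D => a i) ≤ 1 / 16 :=
      le_trans (mul_le_mul_of_nonneg_left h3 (by positivity)) hT2
    linarith
  have havF' : 7 / 8 ≤ av F' := by linarith
  have hsymx : Symm (fun (m : Fin N) (κ : Fin D → Fin K × Bool) =>
    blk 𝕜 (x m) (fun i : Fin D => a i) κ) := blk_symm x _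
  obtain ⟨R, hRc, hR⟩ := hrows N F F' G
    (fun k ν => NR 𝕜 (fun m (κ : Fin D → Fin K × Bool) =>
      blk 𝕜 (x m) (fun i : Fin D => a i) κ) ν (fun _ => 1) 0)
    hN hF0 hFF hG0 (fun k ν => Pool.Agent.Lib.MP_cdd7b4_an.H80.av_nonneg
      (fun _ => norm_nonneg _)) havF havF' havG (by
    intro k hk
    exact ⟨fun ν j => single_le hUNC _ hsymx ν j, hx4 k (hk.trans (le_max_right _ _))⟩)
  have hNpos : (0 : ℝ) < N := by exact_mod_cast hN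
  have hRpos : (0 : ℝ) < R.card := lt_of_lt_of_le (by positivity) hRc
  have hRne : R.Nonempty := by
    rw [← Finset.card_pos]
    exact_mod_cast hRpos
  have hsymt : Symm (fun (m : Fin N) (κ : Fin D → Fin K × Bool) =>
    blk 𝕜 (xt ((2 : ℝ) ^ i0) x m) (fun i : Fin D => a i) κ) := blk_symm _ _
  have hxt : ∀ (m : Fin N) (k : Fin K), ‖xt ((2 : ℝ) ^ i0) x m k‖ ≤ (2 : ℝ) ^ i0 := by
    intro m k
    unfold xt
    split_ifs with h
    · exact h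
    · simp
  refine ⟨R, Fin D → Fin K × Bool, inferInstance, ⟨⟨_, hRne.choose_spec⟩⟩, inferInstance,
    inferInstance, fun i κ => blk 𝕜 (xt ((2 : ℝ) ^ i0) x i.1) (fun i : Fin D => a i) κ, ?_⟩
  refine { sym := ?_, lo := ?_, hi := ?_, eig := ?_, conc := ?_, grow := ?_ }
  · obtain ⟨τ, hτ, h⟩ := hsymt
    exact ⟨τ, hτ, fun i κ => h i.1 κ⟩
  · intro i
    exact (hR i.1 i.2).1
  · intro i
    exact ((hFF i.1).trans (hR i.1 i.2).2.1).trans (le_max_left _ _)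
  · intro i w hw y
    have h := hEIG K D (xt ((2 : ℝ) ^ i0) x i.1) a b ((2 : ℝ) ^ (1 / p)) (2 / l) hK (by positivity)
      (by positivity) (fun i => (hab i).1) (fun i => (hab i).1.trans (hab i).2)
      (fun i hi => le_antisymm ((hab i).2.trans (hb0 i hi).le) (hab i).1)
      hb0 hdil w hw y
    refine h.trans ?_
    have h1 : av (fun κ : Fin D → Fin K × Bool =>
        ‖blk 𝕜 (xt ((2 : ℝ) ^ i0) x i.1) (fun i : Fin D => b i) κ‖) ≤ M₁ :=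
      (av_xt_le _ x _ i.1).trans (hR i.1 i.2).2.2
    calc 2 / (l : ℝ) * w * av (fun κ : Fin D → Fin K × Bool =>
        ‖blk 𝕜 (xt ((2 : ℝ) ^ i0) x i.1) (fun i : Fin D => b i) κ‖)
        ≤ 2 / (l : ℝ) * w * M₁ := mul_le_mul_of_nonneg_left h1 (by positivity)
      _ = (2 / (l : ℝ) * M₁) * w := by ring
      _ ≤ η * w := mul_le_mul_of_nonneg_right hlη hw
  · intro S _ _ π v
    have h := hCONC R S K D (fun i : R => xt ((2 : ℝ) ^ i0) x i.1) (fun i : Fin D => a i)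
      ((2 : ℝ) ^ i0) hK (fun i k => hxt i.1 k) π v
    refine h.trans (mul_le_mul_of_nonneg_right ?_ (Finset.sum_nonneg (fun _ _ => by positivity)))
    exact (mul_le_mul_of_nonneg_left hl2 (by positivity)).trans hT3
  · intro k hk
    have h1 := hSUB N (2 ^ k) (Fin D → Fin K × Bool) (fun m κ =>
      blk 𝕜 (xt ((2 : ℝ) ^ i0) x m) (fun i : Fin D => a i) κ) R hsymt hRne
    have h2 : av (fun ν : Fin (2 ^ k) → Fin N => NR 𝕜 (fun m (κ : Fin D → Fin K × Bool) =>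
        blk 𝕜 (xt ((2 : ℝ) ^ i0) x m) (fun i : Fin D => a i) κ) ν (fun _ => 1) 0) ≤
        β * (1 + k) ^ 2 * (2 : ℝ) ^ ((k : ℝ) / 2) :=
      (Pool.Agent.Lib.MP_cdd7b4_an.H80.av_mono (fun ν => NR_xt_le _ x _ ν _ 0)).trans
        (hx4 k (hk.trans (le_max_left _ _)))
    have h3 : ρ ≤ (R.card : ℝ) / N := by
      rw [le_div_iff₀ hNpos]
      exact hRc
    set Z := av (fun π : Fin (2 ^ k) → R => NR 𝕜 (fun (i : R) (κ : Fin D → Fin K × Bool) =>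
      blk 𝕜 (xt ((2 : ℝ) ^ i0) x i.1) (fun i : Fin D => a i) κ) π (fun _ => 1) 0) with hZ
    have hZ0 : 0 ≤ Z := Pool.Agent.Lib.MP_cdd7b4_an.H80.av_nonneg (fun _ =>
      Pool.Agent.Lib.MP_cdd7b4_an.H80.av_nonneg (fun _ => norm_nonneg _))
    have h4 : ρ * Z ≤ β * (1 + k) ^ 2 * (2 : ℝ) ^ ((k : ℝ) / 2) :=
      ((mul_le_mul_of_nonneg_right h3 hZ0).trans h1).trans h2
    have h5 : Z ≤ β / ρ * (1 + k) ^ 2 * (2 : ℝ) ^ ((k : ℝ) / 2) := by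
      have e : β / ρ * (1 + k) ^ 2 * (2 : ℝ) ^ ((k : ℝ) / 2) =
          (β * (1 + k) ^ 2 * (2 : ℝ) ^ ((k : ℝ) / 2)) / ρ := by ring
      rw [e, le_div_iff₀ hρ]
      linarith
    refine h5.trans ?_
    gcongr
    exact le_max_right _ _

end Pool.Agent.Lib.MP_cdd7b4_an.MX.H1
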