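import Pool.Agent.Lib.MP_cdd7b4_an.MX.H1.Cons
import Pool.Agent.Lib.MP_cdd7b4_an.MX.H1.Prod
import Pool.Agent.Lib.MP_cdd7b4_an.MX.H1.Main
import Pool.Agent.Lib.MP_cdd7b4_an.MX.H21.Efron
import Pool.Agent.Lib.MP_cdd7b4_an.MX.H21.Marg
import Pool.Agent.Lib.MP_cdd7b4_an.MX.H94.Unc
import Pool.Agent.Lib.MP_cdd7b4_an.MX.H94.Selfb
import Pool.Agent.Lib.MP_cdd7b4_an.MX.H72.Symf
import Pool.Agent.Lib.MP_cdd7b4_an.MX.H72.Sel1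
import Pool.Agent.Lib.MP_cdd7b4_an.MX.H72.Sel2
import Pool.Agent.Lib.MP_cdd7b4_an.MX.H87.Round
import Pool.Agent.Lib.MP_cdd7b4_an.MX.H87.Lt
import Pool.Agent.Lib.MP_cdd7b4_an.MX.H96.Joint
import Pool.Agent.Lib.MP_cdd7b4_an.MX.H96.Finc
import Pool.Agent.Lib.MP_cdd7b4_an.MX.H70.Slope
import Pool.Agent.Lib.MP_cdd7b4_an.MX.H70.Heavy1
import Pool.Agent.Lib.MP_cdd7b4_an.MX.H70.Rows
import Pool.Agent.Lib.MP_cdd7b4_an.MX.H70.Heavy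
import Pool.Agent.Lib.MP_cdd7b4_an.MX.H63.Tent
import Pool.Agent.Lib.MP_cdd7b4_an.MX.H63.Rk
import Pool.Agent.Lib.MP_cdd7b4_an.MX.H65.Lim
import Pool.Agent.Lib.MP_cdd7b4_an.MX.H65.Prof
import Pool.Agent.Lib.MP_cdd7b4_an.MX.H9.Trunc
import Pool.Agent.Lib.MP_cdd7b4_an.MX.H9.Sub
import Pool.Agent.Lib.MP_cdd7b4_an.MX.H9.Pick
import Pool.Agent.Lib.MP_cdd7b4_an.MX.H75.Conc
import Pool.Agent.Lib.MP_cdd7b4_an.MX.H75.Eig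
import Pool.Agent.Lib.MP_cdd7b4_an.MX.H99.Arr

set_option autoImplicit false

namespace Pool.Agent.Lib.MP_cdd7b4_an.MX.H1

open MeasureTheory
open Pool.Agent.Lib.MP_cdd7b4_an.MX
open Pool.Agent.Lib.MP_cdd7b4_an.H80 (HasType ContainsUniformly)
open scoped ENNReal

/-- The theorem. -/
theorem final (𝕜 : Type*) [RCLike 𝕜] (X : Type*) [NormedAddCommGroup X] [NormedSpace 𝕜 X]
    (p : ℝ) (hp : 1 ≤ p) (hp2 : p < 2) (hX : ContainsLp 𝕜 X p)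
    (ht : ∀ q : ℝ, 1 ≤ q → q < p → HasType X q)
    (h : ∃ (Ω : Type) (_ : MeasurableSpace Ω) (ν : Measure Ω),
      ContainsUniformly 𝕜 (Lp X 1 ν) X) :
    ∃ t : ℝ≥0∞, 2 ≤ t ∧ ContainsMixed 𝕜 X t p := by
  have hMARG := H21.marg
  have hEFRON := H21.efron
  have hUNC := H94.unc 𝕜 X hMARG
  have hSELFB := H94.selfb 𝕜 X hEFRON hUNC hMARG
  have hSYMF := H72.symf 𝕜 X hMARG hUNC
  have hROUND := H87.round
  have hLT := H87.lt hROUND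
  have hJOINT := H96.joint 𝕜 X hROUND hMARG hUNC
  have hRK := H63.rk H70.slope H63.tent hLT
  have hSEL1 := H72.sel1 𝕜 X hSYMF hSELFB hUNC hMARG
  have hSEL2 := H72.sel2 𝕜 X hSYMF hSELFB hUNC hMARG
  have hFINC := H96.finc 𝕜 X hJOINT hUNC hMARG
  have hHEAVY1 := H70.heavy1
  have hHEAVY := H70.heavy hHEAVY1
  have hTRUNC := H9.trunc 𝕜 X hHEAVY hUNC hMARG
  have hROWS := H70.rows hHEAVY1
  have hSUB := H9.sub 𝕜 X hMARG hUNC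
  have hCONC := H75.conc 𝕜 X hEFRON hMARG
  have hEIG := H75.eig 𝕜 X hMARG hUNC
  have hPICK := H9.pick 𝕜 X (H99.arr 𝕜 X)
  have hCONS := cons 𝕜 X hRK hSYMF hSEL1 hSEL2 hFINC
  have hPROD := prod 𝕜 X hUNC H65.prof hPICK hTRUNC hROWS hSUB hCONC hEIG
  exact main 𝕜 X hCONS hPROD (H65.lim 𝕜 X) p hp hp2 hX ht h

end Pool.Agent.Lib.MP_cdd7b4_an.MX.H1
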